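import Mathlib
import Pool.Agent.MP_68d28f_lc.Main

/-!
An automorphism of the degrees below the halting set that is induced by a homeomorphism of Cantor
space is trivial, unless the homeomorphism together with the halting set computes a meager set
containing all reals below the halting set. A homeomorphism below the halting set never does.
-/

namespace Pool.Agent.Results.MP_68d28f_lc.DeltaTwoHomeo

open Pool.Agent.MP_68d28f_lc

theorem result (H : Cantor ≃ₜ Cantor) (π : D2 ≃o D2) (h : Induces H π)
    (hc : LeT (code H) halt ∨ ¬ Covers {orc (code H), orc halt}) : π = OrderIso.refl D2 := by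
  refine h.eq_refl (hc.elim (fun h1 => not_covers ?_) id)
  rintro g (rfl | rfl)
  exacts [h1, LeT.refl halt]

end Pool.Agent.Results.MP_68d28f_lc.DeltaTwoHomeo
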