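import Mathlib
import Pool.Agent.MP_68d28f_lc.ce.Glue
import Pool.Agent.MP_68d28f_lc.ce.T2
import Pool.Agent.MP_68d28f_lc.ce.T3
import Pool.Agent.MP_68d28f_lc.ce.t1.Inv
import Pool.Agent.MP_68d28f_lc.ce.t1.Path
import Pool.Agent.MP_68d28f_lc.ce.t1.Impl
import Pool.Agent.MP_68d28f_lc.ce.t1.Main
import Pool.Agent.MP_68d28f_lc.ce.t4.Main

/-!
An explicit order-theoretic description of the c.e. degrees among the degrees below the halting
set.
-/

namespace Pool.Agent.Results.MP_68d28f_lc.ExplicitFormula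

open FirstOrder FirstOrder.Language Pool.Agent.MP_68d28f_lc.CE

/-- The Turing degree of a set of natural numbers. -/
noncomputable def deg (A : Set ℕ) : TuringDegree :=
  toAntisymmetrization (TuringReducible : (ℕ →. ℕ) → (ℕ →. ℕ) → Prop)
    fun n => Part.some (A.indicator (fun _ => (1 : ℕ)) n)

/-- The halting set. -/
def halt : Set ℕ := {m | ((Denumerable.ofNat Nat.Partrec.Code m).eval m).Dom}

/-- The degrees of sets computable from the halting set, with the induced order. -/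
abbrev D2 : Type := {d : TuringDegree // ∃ A : Set ℕ, d = deg A ∧ d ≤ deg halt}

/-- `y` lies below a degree `z` without the join property: some nonzero `u ≤ z` joins no degree
other than `z` up to `z`. -/
def BelowNoJoin (y : D2) : Prop :=
  ∃ z u : D2, y ≤ z ∧ u ≤ z ∧ ¬ IsBot u ∧ ∀ w : D2, IsLUB {u, w} z → w = z

/-- Over every `g`, the minimal covers of `g` below the join of `y` and `g` escape every proper
lower cone of the interval. -/
def CoversEscape (y : D2) : Prop :=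
  ∀ g c v : D2, IsLUB {y, g} v → g ≤ c → c < v → ∃ m : D2, g ⋖ m ∧ m ≤ v ∧ ¬ m ≤ c

private lemma lub_iff {a b x : D2} :
    IsLUB {a, b} x ↔ a ≤ x ∧ b ≤ x ∧ ∀ u, a ≤ u → b ≤ u → x ≤ u := by
  simp only [IsLUB, IsLeast, upperBounds, lowerBounds, Set.mem_ofPred_eq, Set.mem_insert_iff,
    Set.mem_singleton_iff, forall_eq_or_imp, forall_eq, and_imp, and_assoc]

private lemma re_iff {A : Set ℕ} : REPred (· ∈ A) ↔ IsRE A := by
  constructor
  · intro h
    obtain ⟨c, hc⟩ := Nat.Partrec.Code.exists_code.1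
      (Partrec.nat_iff.1 (h.map (Computable.const (0 : ℕ)).to₂))
    exact ⟨c, fun n => by simp [hc, Part.assert]⟩
  · rintro ⟨c, hc⟩
    exact (Partrec.nat_iff.2 (Nat.Partrec.Code.exists_code.2 ⟨c, rfl⟩)).dom_re.of_eq
      fun n => (hc n).symm

private lemma exists_rep : ∃ rep : D2 → Set ℕ, (∀ y, y.1 = dg (rep y)) ∧
    Rep fun y : D2 => chi (rep y) := by
  have hr : ∀ y : D2, ∃ A, y.1 = dg A ∧ Red (chi A) KK := fun y => by
    obtain ⟨A, e1, e2⟩ := y.2
    exact ⟨A, e1, dg_le.1 (e1.ge.trans e2)⟩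
  choose rep r1 r2 using hr
  exact ⟨rep, r1, fun a b => by rw [← dg_le, ← r1, ← r1]; rfl, r2, fun y => chi_le_one _,
    fun a ha => by
      obtain ⟨A, a1, a2⟩ := exists_graph a
      exact ⟨⟨dg A, A, rfl, dg_le.2 (a2.trans ha)⟩, (dg_le.1 (r1 _).ge).trans a2,
        a1.trans (dg_le.1 (r1 _).le)⟩⟩

private lemma phi_iff (x : D2) : (∃ A : Set ℕ, REPred (· ∈ A) ∧ x.1 = deg A) ↔
    @Formula.Realize _ D2 (Language.orderStructure D2) _ phi fun _ => x := by
  let S : Language.order.Structure D2 := Language.orderStructure D2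
  have hO : Language.order.OrderedStructure D2 := ⟨fun _ => Iff.rfl⟩
  obtain ⟨rep, r1, R⟩ := exists_rep
  refine Iff.trans ?_ (re_phi R (Meet.stMain Meet.stInv Meet.stPath Meet.stImpl) t2 t3 t4 x).symm
  constructor
  · rintro ⟨A, hA, e⟩
    have e3 : dg (rep x) = dg A := (r1 x).symm.trans e
    exact ⟨A, re_iff.1 hA, dg_le.1 e3.le, dg_le.1 e3.ge⟩
  · rintro ⟨A, hA, w2, w3⟩
    exact ⟨A, re_iff.2 hA, (r1 x).trans (le_antisymm (dg_le.2 w2) (dg_le.2 w3))⟩

theorem result (x : D2) :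
    (∃ A : Set ℕ, REPred (· ∈ A) ∧ x.1 = deg A) ↔
      ∃ a b : D2, IsLUB {a, b} x ∧ BelowNoJoin a ∧ CoversEscape a ∧
        BelowNoJoin b ∧ CoversEscape b := by
  let S : Language.order.Structure D2 := Language.orderStructure D2
  have hO : Language.order.OrderedStructure D2 := ⟨fun _ => Iff.rfl⟩
  obtain ⟨rep, r1, R⟩ := exists_rep
  have hj : ∀ a b : D2, ∃ v, IsLUB {a, b} v := fun a b => by
    obtain ⟨v, v1, v2⟩ := R.sj _ ((R.bd a).jn (R.bd b))
    exact ⟨v, lub_iff.2 ⟨(R.le _ _).2 ((red_jn_left _ _).trans v2),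
      (R.le _ _).2 ((red_jn_right _ _).trans v2),
      fun u h1 h2 => (R.le _ _).2 (v1.trans (((R.le _ _).1 h1).jn ((R.le _ _).1 h2)))⟩⟩
  have h1 : ∀ y : D2, (∃ z, y ≤ z ∧ ∃ u, u ≤ z ∧ (∃ t, ¬ u ≤ t) ∧
      ∀ w, w ≤ z → (∀ r, u ≤ r → w ≤ r → z ≤ r) → z ≤ w) ↔ BelowNoJoin y := fun y => by
    constructor
    · rintro ⟨z, a1, u, a2, ⟨t, a3⟩, a4⟩
      refine ⟨z, u, a1, a2, fun h => a3 (h t), fun w hw => ?_⟩
      obtain ⟨-, b2, b3⟩ := lub_iff.1 hw
      exact le_antisymm b2 (a4 w b2 b3)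
    · rintro ⟨z, u, a1, a2, a3, a4⟩
      exact ⟨z, a1, u, a2, not_forall.1 a3, fun w b2 b3 => (a4 w (lub_iff.2 ⟨a2, b2, b3⟩)).ge⟩
  have h2 : ∀ y : D2, (∀ g c, g ≤ c → (∀ r, y ≤ r → g ≤ r → c ≤ r) → ¬ y ≤ c →
      ∃ m, (∀ r, y ≤ r → g ≤ r → m ≤ r) ∧ (g ≤ m ∧ ∀ d, g ≤ d → d ≤ m → d ≤ g ∨ m ≤ d) ∧
        ¬ m ≤ c) ↔ CoversEscape y := fun y => by
    constructor
    · intro h g c v hv a1 a2
      obtain ⟨b1, b2, b3⟩ := lub_iff.1 hv
      obtain ⟨m, m1, ⟨m2, m3⟩, m4⟩ := h g c a1 (fun r c1 c2 => a2.le.trans (b3 r c1 c2))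
        fun e => a2.not_ge (b3 c e a1)
      exact ⟨m, ⟨lt_of_le_not_ge m2 fun e => m4 (e.trans a1), fun d d1 d2 =>
        (m3 d d1.le d2.le).elim d1.not_ge d2.not_ge⟩, m1 v b1 b2, m4⟩
    · intro h g c a1 a2 a3
      obtain ⟨v, hv⟩ := hj y g
      obtain ⟨b1, b2, b3⟩ := lub_iff.1 hv
      obtain ⟨m, m1, m2, m3⟩ := h g c v hv a1
        (lt_of_le_not_ge (a2 v b1 b2) fun e => a3 (b1.trans e))
      exact ⟨m, fun r c1 c2 => m2.trans (b3 r c1 c2), ⟨m1.le, fun d d1 d2 =>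
        (m1.eq_or_eq d1 d2).imp Eq.le Eq.ge⟩, m3⟩
  rw [phi_iff]
  simp only [phi, fce, fgd, flow, fnj, fes, fmc, fub, Formula.Realize, BoundedFormula.realize_ex,
    BoundedFormula.realize_inf, BoundedFormula.realize_all, BoundedFormula.realize_imp,
    BoundedFormula.realize_not, BoundedFormula.realize_sup, re_le, Fin.snoc_castSucc,
    Fin.snoc_last, BoundedFormula.realize_bdEqual, Term.realize_var, Sum.elim_inl,
    Function.comp_apply, Sum.elim_inr, h1, h2, lub_iff]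
  constructor
  · rintro ⟨x', e, a, b, a1, b1, j, ⟨a2, a3⟩, b2, b3⟩
    obtain rfl : x' = x := e
    exact ⟨a, b, ⟨a1, b1, j⟩, a2, a3, b2, b3⟩
  · rintro ⟨a, b, ⟨a1, b1, j⟩, a2, a3, b2, b3⟩
    exact ⟨x, rfl, a, b, a1, b1, j, ⟨a2, a3⟩, b2, b3⟩

/-- Quantifier levels of formulas built from implication and the universal quantifier:
`Level true k φ` says that `φ` is `Σ_k`, `Level false k φ` that it is `Π_k`. -/
inductive Level : Bool → ℕ → {n : ℕ} → Language.order.BoundedFormula (Fin 1) n → Prop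
  | qf {s : Bool} {k n : ℕ} {φ : Language.order.BoundedFormula (Fin 1) n} :
      φ.IsQF → Level s k φ
  | imp {s : Bool} {k n : ℕ} {φ ψ : Language.order.BoundedFormula (Fin 1) n} :
      Level (!s) k φ → Level s k ψ → Level s k (φ.imp ψ)
  | all {k n : ℕ} {φ : Language.order.BoundedFormula (Fin 1) (n + 1)} :
      Level false (k + 1) φ → Level false (k + 1) φ.all
  | up {s t : Bool} {k n : ℕ} {φ : Language.order.BoundedFormula (Fin 1) n} :
      Level s k φ → Level t (k + 1) φ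

section

variable {s : Bool} {k n : ℕ}

private lemma lv_not {φ : Fm n} (h : Level (!s) k φ) : Level s k φ.not :=
  .imp h (.qf BoundedFormula.isQF_bot)

private lemma lv_inf {φ ψ : Fm n} (h : Level s k φ) (h' : Level s k ψ) : Level s k (φ ⊓ ψ) :=
  lv_not (.imp (by simpa using h) (lv_not (by simpa using h')))

private lemma lv_ex {φ : Fm (n + 1)} (h : Level true (k + 1) φ) : Level true (k + 1) φ.ex :=
  lv_not (.all (lv_not h))

private lemma qf_le {i j : Fin n} : (fle i j).IsQF :=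
  (BoundedFormula.IsAtomic.rel _ _).isQF

private lemma lv_ub {a b x : Fin n} : Level false (k + 1) (fub a b x) :=
  .all (.qf (qf_le.imp (qf_le.imp qf_le)))

private lemma lv_gd {y : Fin n} : Level true 4 (fgd y) :=
  lv_inf (.up (lv_ex (lv_inf (.qf qf_le) (lv_ex (lv_inf (.qf qf_le) (lv_inf
      (lv_ex (.qf qf_le.not))
      (.up (s := false) (.all (.imp (.qf qf_le) (.imp (.up (s := false) lv_ub) (.qf qf_le)))))))))))
    (.up (s := false) (.all (.all (.up (s := true) (.imp (.qf qf_le) (.imp lv_ub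
      (.imp (.qf qf_le.not) (lv_ex (.up (s := false) (lv_inf lv_ub (lv_inf (lv_inf (.qf qf_le)
        (.all (.qf (qf_le.imp (qf_le.imp (qf_le.sup qf_le)))))) (.qf qf_le.not))))))))))))

end

/-- The posed form, with the quantifier level: a `Σ_4` formula without parameters. -/
theorem sigma_four : ∃ φ : Language.order.Formula (Fin 1), Level true 4 φ ∧ ∀ x : D2,
    (@Formula.Realize _ D2 (Language.orderStructure D2) _ φ fun _ => x) ↔
      ∃ A : Set ℕ, REPred (· ∈ A) ∧ x.1 = deg A :=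
  ⟨phi, lv_ex (lv_inf (.qf (BoundedFormula.IsAtomic.equal _ _).isQF) (lv_ex (lv_ex
    (lv_inf (.qf qf_le) (lv_inf (.qf qf_le) (lv_inf (.up (s := false) lv_ub)
      (lv_inf lv_gd lv_gd))))))), fun x => (phi_iff x).symm⟩

end Pool.Agent.Results.MP_68d28f_lc.ExplicitFormula
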